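import Pool.Agent.W6.PS.Final

/-!
Let `p n` be the probability that `Av(π)` is unsplittable for a uniformly random permutation `π`
of size `n`. For every `n ≥ 100` we have `p n ≤ 1 - ε` with `ε = 1 / (256 * 200 ^ 20)`; in
particular `p n` does not tend to `1`.

Idea: if `π` has an increasing and a decreasing adjacency and a few entries in generic position,
then there are two pointed permutations in `Av(π)`, each with about `2 n` entries, which cannot be
amalgamated over the marked entry inside `Av(π)`: one of them forbids all entries in the gap
between its marked entry and its left neighbour (which lies above) that are below the marked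
entry, the other one forbids (upside down) all entries above. Such a failure of one-point
amalgamation makes `Av(π)` splittable. A second moment computation shows that a positive fraction
of all permutations is of this kind.
-/

namespace Pool.Agent.Results.MP_d28c7d_co.NotTendstoOne

open Pool.Agent.W6.PS Filter Topology

/-- `p n ≤ 1 - ε` for all `n ≥ 100`, and `p n` does not tend to `1`. -/
theorem result :
    (∀ n : ℕ, 100 ≤ n → p n ≤ 1 - 1 / (256 * (200 : ℝ) ^ 20)) ∧ ¬ Tendsto p atTop (𝓝 1) := by
  have h : ∀ n : ℕ, 100 ≤ n → p n ≤ 1 - 1 / (256 * (200 : ℝ) ^ 20) := fun n hn => p_le hn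
  refine ⟨h, fun ht => ?_⟩
  have h1 : (1 : ℝ) ≤ 1 - 1 / (256 * (200 : ℝ) ^ 20) :=
    le_of_tendsto ht (eventually_atTop.2 ⟨100, h⟩)
  have h2 : (0 : ℝ) < 1 / (256 * (200 : ℝ) ^ 20) := by positivity
  linarith

end Pool.Agent.Results.MP_d28c7d_co.NotTendstoOne
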